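import Mathlib
import Pool.Agent.Y947.DL.NTB

/-!
# Project RL: relative Lehmer problem over cyclotomic fields. Definitions and statements of the jobs.

`K` is a number field containing a primitive `m`-th root of unity `ζ`; the complex embeddings of `K`
are divided into classes according to the image of `ζ`.
-/

set_option autoImplicit false

open Finset Polynomial Module Pool.Agent.H388SL Pool.Agent.Y947.DL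

namespace Pool.Agent.Y947.RL

/-- the specialisation `T ↦ ω` of a polynomial `F(T, X)` in `ℤ[T][X]` -/
noncomputable def sp {A : Type*} [CommRing A] (ω : A) (F : ℤ[X][X]) : A[X] :=
  F.map (aeval ω : ℤ[X] →ₐ[ℤ] A).toRingHom

section
variable {K : Type*} [Field K] [NumberField K]

open Classical in
/-- the embeddings `τ` with `τ ζ = ω` -/
noncomputable def cls (ζ : K) (ω : ℂ) : Finset (K →ₐ[ℚ] ℂ) := Finset.univ.filter fun τ => τ ζ = ω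

/-- the standing assumptions: `ζ` is a primitive `m`-th root of unity, `K = ℚ(ζ, α)`, `α` is an
algebraic integer, not zero and no root of unity, and no quotient of two different conjugates
of `α` over `ℚ` is a root of unity -/
structure Ctx (m : ℕ) (ζ α : K) : Prop where
  hm : 0 < m
  hζ : IsPrimitiveRoot ζ m
  hα : IsIntegral ℤ α
  h0 : α ≠ 0
  hroot : ∀ n : ℕ, 0 < n → α ^ n ≠ 1
  gen : ∀ σ τ : K →ₐ[ℚ] ℂ, σ ζ = τ ζ → σ α = τ α → σ = τ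
  inj : ∀ k : ℕ, 0 < k → ∀ σ τ : K →ₐ[ℚ] ℂ, (σ α) ^ k = (τ α) ^ k → σ α = τ α

/-- `u` fixes the minimal polynomial of `α` over `ℚ(ζ)` (where `u` stands for `ζ ↦ ζ ^ u`) -/
def Fix (ζ α : K) (u : ℕ) : Prop := ∀ σ : K →ₐ[ℚ] ℂ, ∃ τ : K →ₐ[ℚ] ℂ, τ ζ = (σ ζ) ^ u ∧ τ α = σ α

/-- the group `Gal(ℚ(ζ_m) / ℚ(ζ_{m/p}))` -/
def Gset (m p : ℕ) : Finset ℕ := (Finset.range m).filter fun u => u.Coprime m ∧ u ≡ 1 [MOD m / p]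

open Classical in
/-- the stabiliser of the minimal polynomial in this group -/
noncomputable def Hset (m p : ℕ) (ζ α : K) : Finset ℕ := (Gset m p).filter fun u => Fix ζ α u

open Classical in
/-- energies: all pairs of embeddings with `(σ ζ) ^ s = (τ ζ) ^ t` -/
noncomputable def EP (ζ α : K) (ε : (K →ₐ[ℚ] ℂ) → ℝ) (p q s t : ℕ) : ℝ :=
  ∑ σ : K →ₐ[ℚ] ℂ, ∑ τ : K →ₐ[ℚ] ℂ, if (σ ζ) ^ s = (τ ζ) ^ t then
    -Real.log ‖1 - ww α ε σ ^ p * starRingEnd ℂ (ww α ε τ ^ q)‖ else 0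

end

/-- J0: relative characteristic polynomials have coefficients in `ℤ[ζ]` -/
def S_J0 : Prop := ∀ (K : Type) [Field K] [NumberField K] (m : ℕ) (ζ : K), 0 < m →
  IsPrimitiveRoot ζ m → ∀ β : K, IsIntegral ℤ β →
    ∃ F : ℤ[X][X], F.Monic ∧ ∀ σ : K →ₐ[ℚ] ℂ, sp (σ ζ) F = ∏ τ ∈ cls ζ (σ ζ), (X - C (τ β))

/-- TR: transitivity and the sizes of the classes -/
def S_TR : Prop := ∀ (K : Type) [Field K] [NumberField K] (m : ℕ) (ζ : K), 0 < m →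
  IsPrimitiveRoot ζ m →
    (∀ (σ : K →ₐ[ℚ] ℂ) (s : ℕ), s.Coprime m → ∃ τ : K →ₐ[ℚ] ℂ, τ ζ = (σ ζ) ^ s) ∧
    (∀ ω : ℂ, IsPrimitiveRoot ω m → ∃ τ : K →ₐ[ℚ] ℂ, τ ζ = ω) ∧
    (∀ ω : ℂ, IsPrimitiveRoot ω m → (cls ζ ω).card * Nat.totient m = finrank ℚ K)

/-- NV: powers of conjugates with different exponents are different -/
def S_NV : Prop := ∀ (K : Type) [Field K] [NumberField K] (α : K), α ≠ 0 →
  (∀ n : ℕ, 0 < n → α ^ n ≠ 1) → ∀ a b : ℕ, 0 < a → 0 < b → a ≠ b →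
    ∀ σ τ : K →ₐ[ℚ] ℂ, (σ α) ^ a ≠ (τ α) ^ b

/-- NRM: the product over a relation is at least one -/
def S_NRM : Prop := ∀ (K : Type) [Field K] [NumberField K] (m : ℕ) (ζ : K), 0 < m →
  IsPrimitiveRoot ζ m → ∀ β γ : K, IsIntegral ℤ β → IsIntegral ℤ γ → ∀ s : ℕ, s.Coprime m →
    (∀ σ : K →ₐ[ℚ] ℂ, ∀ τ ∈ cls ζ ((σ ζ) ^ s), σ β ≠ τ γ) →
    1 ≤ ∏ σ : K →ₐ[ℚ] ℂ, ∏ τ ∈ cls ζ ((σ ζ) ^ s), ‖σ β - τ γ‖

/-- FR0: Frobenius congruence for the primes not dividing `m` -/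
def S_FR0 : Prop := ∀ (K : Type) [Field K] [NumberField K] (m : ℕ) (ζ α : K), 0 < m →
  IsPrimitiveRoot ζ m → IsIntegral ℤ α → ∀ p : ℕ, p.Prime → ¬ p ∣ m →
    (∀ σ : K →ₐ[ℚ] ℂ, ∀ τ ∈ cls ζ ((σ ζ) ^ p), (σ α) ^ p ≠ τ α) →
    (p : ℝ) ^ finrank ℚ K ≤ ∏ σ : K →ₐ[ℚ] ℂ, ∏ τ ∈ cls ζ ((σ ζ) ^ p), ‖(σ α) ^ p - τ α‖

/-- PI: elements of `ℤ[ζ]` which are divisible by `1 - ζ_p` and fixed by a subgroup of order `h` of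
the inertia group are divisible by the `h`-th power of `1 - ζ_p`; `p` divides `m` exactly once, the
subgroup is a set `H` of exponents `u ≡ 1 (mod m / p)` -/
def S_PI : Prop := ∀ (K : Type) [Field K] [NumberField K] (m : ℕ) (ζ : K), 0 < m →
  IsPrimitiveRoot ζ m → ∀ p : ℕ, p.Prime → p ∣ m → ¬ p ^ 2 ∣ m → ∀ H : Finset ℕ,
    H ⊆ Gset m p → 1 ∈ H → (∀ u ∈ H, ∀ v ∈ H, u * v % m ∈ H) →
    ∀ A : ℤ[X], (∀ u ∈ H, aeval (ζ ^ u) A = aeval ζ A) →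
      (∃ y : K, IsIntegral ℤ y ∧ aeval ζ A = (1 - ζ ^ (m / p)) * y) →
      ∃ y : K, IsIntegral ℤ y ∧ aeval ζ A = (1 - ζ ^ (m / p)) ^ H.card * y

/-- FR1: the congruence for the primes dividing `m` exactly once -/
def S_FR1 : Prop := ∀ (K : Type) [Field K] [NumberField K] (m : ℕ) (ζ α : K), Ctx m ζ α →
  ∀ p : ℕ, p.Prime → p ∣ m → ¬ p ^ 2 ∣ m →
    ∀ s : ℕ, s.Coprime m → s ≡ p [MOD m / p] →
    (∀ σ : K →ₐ[ℚ] ℂ, ∀ τ ∈ cls ζ ((σ ζ) ^ s), (σ α) ^ p ≠ τ α) →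
    (p : ℝ) ^ ((finrank ℚ K : ℝ) * (Hset m p ζ α).card / (p - 1)) ≤
      ∏ σ : K →ₐ[ℚ] ℂ, ∏ τ ∈ cls ζ ((σ ζ) ^ s), ‖(σ α) ^ p - τ α‖

/-- RAM: the congruence between `p`-th powers for the primes dividing `m` -/
def S_RAM : Prop := ∀ (K : Type) [Field K] [NumberField K] (m : ℕ) (ζ α : K), 0 < m →
  IsPrimitiveRoot ζ m → IsIntegral ℤ α → ∀ p : ℕ, p.Prime → p ∣ m → ∀ u ∈ Gset m p,
    (∀ σ : K →ₐ[ℚ] ℂ, ∀ τ ∈ cls ζ ((σ ζ) ^ u), (σ α) ^ p ≠ (τ α) ^ p) →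
    (p : ℝ) ^ finrank ℚ K ≤ ∏ σ : K →ₐ[ℚ] ℂ, ∏ τ ∈ cls ζ ((σ ζ) ^ u), ‖(σ α) ^ p - (τ α) ^ p‖

/-- QUO: the resultant of `α ^ p` with itself, divided by the one of `α` -/
def S_QUO : Prop := ∀ (K : Type) [Field K] [NumberField K] (m : ℕ) (ζ α : K), Ctx m ζ α →
  ∀ p : ℕ, 0 < p →
    (∀ σ : K →ₐ[ℚ] ℂ, ∀ τ ∈ cls ζ (σ ζ), ∑ l ∈ range p, (σ α) ^ l * (τ α) ^ (p - 1 - l) ≠ 0) ∧
    1 ≤ ∏ σ : K →ₐ[ℚ] ℂ, ∏ τ ∈ cls ζ (σ ζ), ‖∑ l ∈ range p, (σ α) ^ l * (τ α) ^ (p - 1 - l)‖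

/-- FX: zero sets of different conjugates of the minimal polynomial are disjoint, and the size of
`Gset` -/
def S_FX : Prop := ∀ (K : Type) [Field K] [NumberField K] (m : ℕ) (ζ α : K), Ctx m ζ α →
  (∀ u : ℕ, u.Coprime m → ¬ Fix ζ α u → ∀ σ : K →ₐ[ℚ] ℂ, ∀ τ ∈ cls ζ ((σ ζ) ^ u), σ α ≠ τ α) ∧
  (∀ p : ℕ, p.Prime → p ∣ m → (Gset m p).card = if p ^ 2 ∣ m then p else p - 1) ∧
  (∀ p : ℕ, p.Prime → p ∣ m → p ^ 2 ∣ m → (∃ u ∈ Gset m p, ¬ Fix ζ α u) → (Hset m p ζ α).card = 1) ∧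
  (∀ p : ℕ, p.Prime → p ∣ m → 0 < (Hset m p ζ α).card)

/-- PSD: the energies are positive semidefinite -/
def S_PSD : Prop := ∀ (K : Type) [Field K] [NumberField K] (ζ α : K) (ε : (K →ₐ[ℚ] ℂ) → ℝ),
  (∀ σ, 0 < ε σ ∧ ε σ ≤ 1 / 2) → ∀ (ι : Type) (I : Finset ι) (p s : ι → ℕ) (x : ι → ℝ),
    (∀ i ∈ I, 0 < p i) →
    0 ≤ ∑ i ∈ I, ∑ j ∈ I, x i * x j * EP ζ α ε (p i) (p j) (s i) (s j)

/-- GEN: from a lower bound of the product over a relation to an upper bound of the energy -/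
def S_GEN : Prop := ∀ (K : Type) [Field K] [NumberField K] (m : ℕ) (ζ α : K), Ctx m ζ α →
  ∀ (ε : (K →ₐ[ℚ] ℂ) → ℝ), (∀ σ, 0 < ε σ ∧ ε σ ≤ 1 / 2) → ∀ p q s t u : ℕ, 0 < p → 0 < q →
    s.Coprime m → t.Coprime m → s ≡ u * t [MOD m] →
    (∀ σ : K →ₐ[ℚ] ℂ, ∀ τ ∈ cls ζ ((σ ζ) ^ u), (σ α) ^ p ≠ (τ α) ^ q) →
    EP ζ α ε p q s t ≤
      -Real.log (∏ σ : K →ₐ[ℚ] ℂ, ∏ τ ∈ cls ζ ((σ ζ) ^ u), ‖(σ α) ^ p - (τ α) ^ q‖) +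
        (finrank ℚ K : ℝ) / Nat.totient m * ((p + q) * (lam α + ∑ σ, ε σ))

/-- SLF: the self energies of the `p`-th powers -/
def S_SLF : Prop := ∀ (K : Type) [Field K] [NumberField K] (m : ℕ) (ζ α : K), Ctx m ζ α →
  ∀ (ε : (K →ₐ[ℚ] ℂ) → ℝ), (∀ σ, 0 < ε σ ∧ ε σ ≤ 1 / 2) → (∀ σ τ, σ α = τ α → ε σ = ε τ) →
    ∀ p s t u : ℕ, 0 < p → s.Coprime m → t.Coprime m → s ≡ u * t [MOD m] → Fix ζ α u →
    EP ζ α ε p p s t ≤ EP ζ α ε 1 1 1 1 +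
      (finrank ℚ K : ℝ) / Nat.totient m * (2 * p * (lam α + ∑ σ, ε σ))

end Pool.Agent.Y947.RL
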