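import Mathlib
import Pool.Agent.Y947.RL.Stm

/-!
# Project RL, second group of statements: optimisation, analysis, translation to polynomials
-/

set_option autoImplicit false

open Finset Polynomial Module Pool.Agent.H388SL Pool.Agent.Y947.DL

namespace Pool.Agent.Y947.RL

/-- the right hand side of the energy inequality, divided by the degree -/
noncomputable def rhs (R μ : ℝ) (e : ℕ → ℝ) (P : Finset ℕ) (a : ℝ) : ℝ :=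
  a ^ 2 * R + 2 * a * ∑ p ∈ P, (-(Real.log p / e p) + (p + 1) * μ) +
    ∑ p ∈ P, (R / e p - (1 - 1 / e p) * Real.log p + 2 * p * μ) +
    ∑ p ∈ P, ∑ q ∈ P.erase p, ((p : ℝ) + q) * μ

/-- OPT: the optimisation -/
def S_OPT : Prop := ∃ c : ℝ, 0 < c ∧ ∀ (R μ : ℝ) (e : ℕ → ℝ) (Bad : ℕ → Prop), 1 ≤ R → 0 ≤ μ →
  (∀ p : ℕ, p.Prime → 1 ≤ e p) →
  (∀ p : ℕ, p.Prime → Bad p → ((p : ℝ) - 1) * Real.log p ≤ R + 2 * (p : ℝ) ^ 2 * μ) →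
  (∀ P : Finset ℕ, (∀ p ∈ P, p.Prime ∧ ¬ Bad p) → ∀ a : ℝ, 0 ≤ a → 0 ≤ rhs R μ e P a) →
  c * ((1 + Real.log R) / R) ^ 6 ≤ μ

/-- AN1: contraction of one finite set of complex numbers -/
def S_AN1 : Prop := ∃ C : ℝ, 1 ≤ C ∧ ∀ S : Finset ℂ, S.Nonempty → ∀ κ : ℝ, 0 < κ → κ ≤ 1 →
  ∃ ε : ℂ → ℝ, (∀ z ∈ S, 0 < ε z ∧ ε z ≤ 1 / 2) ∧
    ∑ z ∈ S, ε z ≤ κ * (C * (1 + Real.circleAverage (fun x : ℂ => Real.posLog ‖∏ z ∈ S, (x - z)‖) 0 1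
      + ∑ z ∈ S, (1 - ‖H388SL.refl z‖))) ∧
    ∑ z ∈ S, ∑ w ∈ S, -Real.log ‖1 - (((1 - ε z) * (1 - ε w) : ℝ) : ℂ) *
        (H388SL.refl z * starRingEnd ℂ (H388SL.refl w))‖ ≤
      S.card * (C * (1 + Real.circleAverage (fun x : ℂ => Real.posLog ‖∏ z ∈ S, (x - z)‖) 0 1
      + ∑ z ∈ S, (1 - ‖H388SL.refl z‖)) * (1 + Real.log (1 / κ)))

section
variable {K : Type*} [Field K] [NumberField K]

/-- the mean of the means of `log⁺ |F_ω|` -/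
noncomputable def Mp (m : ℕ) (ζ α : K) : ℝ :=
  (∑ ω ∈ primitiveRoots m ℂ,
    Real.circleAverage (fun x : ℂ => Real.posLog ‖∏ τ ∈ cls ζ ω, (x - τ α)‖) 0 1) / Nat.totient m

/-- the index of the stabiliser, for primes whose square does not divide `m` -/
noncomputable def ee (m : ℕ) (ζ α : K) (p : ℕ) : ℝ :=
  if p ∣ m then ((p : ℝ) - 1) / (Hset m p ζ α).card else 1

end

/-- ANA: contractions for the conjugates of `α` -/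
def S_ANA : Prop := ∃ C : ℝ, 1 ≤ C ∧ ∀ (K : Type) [Field K] [NumberField K] (m : ℕ) (ζ α : K),
  Ctx m ζ α → ∀ κ : ℝ, 0 < κ → κ ≤ 1 →
  ∃ ε : (K →ₐ[ℚ] ℂ) → ℝ, (∀ σ, 0 < ε σ ∧ ε σ ≤ 1 / 2) ∧ (∀ σ τ, σ α = τ α → ε σ = ε τ) ∧
    ∑ σ, ε σ ≤ Nat.totient m * (κ * (C * (1 + Mp m ζ α + 2 * (lam α / Nat.totient m)))) ∧
    EP ζ α ε 1 1 1 1 ≤ finrank ℚ K *
      (C * (1 + Mp m ζ α + 2 * (lam α / Nat.totient m)) * (1 + Real.log (1 / κ)))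

/-- H1: the energy inequality for a finite set of primes -/
def S_H1 : Prop := ∀ (K : Type) [Field K] [NumberField K] (m : ℕ) (ζ α : K), Ctx m ζ α →
  ∀ ε : (K →ₐ[ℚ] ℂ) → ℝ, (∀ σ, 0 < ε σ ∧ ε σ ≤ 1 / 2) → (∀ σ τ, σ α = τ α → ε σ = ε τ) →
  ∀ R : ℝ, EP ζ α ε 1 1 1 1 ≤ finrank ℚ K * R →
  ∀ P : Finset ℕ, (∀ p ∈ P, p.Prime ∧ ¬ p ^ 2 ∣ m) → ∀ a : ℝ, 0 ≤ a →
    0 ≤ rhs R ((lam α + ∑ σ, ε σ) / Nat.totient m) (ee m ζ α) P a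

/-- H2: the energy inequality for a prime whose square divides `m` -/
def S_H2 : Prop := ∀ (K : Type) [Field K] [NumberField K] (m : ℕ) (ζ α : K), Ctx m ζ α →
  ∀ ε : (K →ₐ[ℚ] ℂ) → ℝ, (∀ σ, 0 < ε σ ∧ ε σ ≤ 1 / 2) → (∀ σ τ, σ α = τ α → ε σ = ε τ) →
  ∀ R : ℝ, EP ζ α ε 1 1 1 1 ≤ finrank ℚ K * R →
  ∀ p : ℕ, p.Prime → p ^ 2 ∣ m → (∃ u ∈ Gset m p, ¬ Fix ζ α u) →
    ((p : ℝ) - 1) * Real.log p ≤ R + 2 * (p : ℝ) ^ 2 * ((lam α + ∑ σ, ε σ) / Nat.totient m)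

/-- the hypotheses of the main theorem about a polynomial `F(T, X)` with integral coefficients -/
structure Hyp (m : ℕ) (F : ℤ[X][X]) : Prop where
  hm : 0 < m
  monic : F.Monic
  irr : ∀ ω : ℂ, IsPrimitiveRoot ω m →
    Irreducible (sp (IntermediateField.AdjoinSimple.gen ℚ ω : IntermediateField.adjoin ℚ {ω}) F)
  h0 : ∀ ω : ℂ, IsPrimitiveRoot ω m → (sp ω F).eval 0 ≠ 0
  hroot : ∀ ω : ℂ, IsPrimitiveRoot ω m → ∀ z : ℂ, (sp ω F).eval z = 0 → ∀ k : ℕ, 0 < k → z ^ k ≠ 1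
  quot : ∀ ω ω' : ℂ, IsPrimitiveRoot ω m → IsPrimitiveRoot ω' m → ∀ z w : ℂ,
    (sp ω F).eval z = 0 → (sp ω' F).eval w = 0 → ∀ k : ℕ, 0 < k → z ^ k = w ^ k → z = w

/-- FK: from the polynomial to a number field -/
def S_FK : Prop := ∀ (m : ℕ) (F : ℤ[X][X]), Hyp m F →
  ∃ (K : Type) (_ : Field K) (_ : NumberField K) (ζ α : K), Ctx m ζ α ∧
    ∀ ω : ℂ, IsPrimitiveRoot ω m → sp ω F = ∏ τ ∈ cls ζ ω, (X - C (τ α))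

/-- RED: reduction from `m` to `m / p` if `p ^ 2` divides `m` -/
def S_RED : Prop := ∀ (m : ℕ) (F : ℤ[X][X]), Hyp m F → ∀ p : ℕ, p.Prime → p ^ 2 ∣ m →
  (∀ ω : ℂ, IsPrimitiveRoot ω m → ∀ u ∈ Gset m p, sp (ω ^ u) F = sp ω F) →
  ∃ F' : ℤ[X][X], Hyp (m / p) F' ∧ ∀ ω : ℂ, IsPrimitiveRoot ω m → sp (ω ^ p) F' = sp ω F

/-- mean over the primitive roots of unity -/
noncomputable def meanP (m : ℕ) (f : ℂ → ℝ) : ℝ := (∑ ω ∈ primitiveRoots m ℂ, f ω) / Nat.totient m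

/-- MEA: means over primitive `m`-th roots of a function of `ω ^ p` -/
def S_MEA : Prop := ∀ (m p : ℕ), 0 < m → p.Prime → p ^ 2 ∣ m → ∀ f : ℂ → ℝ,
  meanP m (fun ω => f (ω ^ p)) = meanP (m / p) f

/-- FXE: if all of `Gset` fixes `α` then the polynomials are the same -/
def S_FXE : Prop := ∀ (K : Type) [Field K] [NumberField K] (m : ℕ) (ζ α : K), Ctx m ζ α →
  ∀ u : ℕ, u.Coprime m → Fix ζ α u → ∀ ω : ℂ, IsPrimitiveRoot ω m →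
    ∏ τ ∈ cls ζ (ω ^ u), ((X : ℂ[X]) - C (τ α)) = ∏ τ ∈ cls ζ ω, (X - C (τ α))

end Pool.Agent.Y947.RL
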