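import Mathlib
import Pool.Agent.Y947.RL.Stm2

/-!
# Project RL, third group: the version without a hypothesis on quotients of conjugates

Quotients of conjugates over `ℚ(ζ_m)` are no roots of unity (`Ctx2`, `Hyp2`); the general case over
`ℚ(μ_∞)` is reduced to this one.
-/

set_option autoImplicit false

open Finset Polynomial Module Pool.Agent.H388SL Pool.Agent.Y947.DL

namespace Pool.Agent.Y947.RL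

section
variable {K : Type*} [Field K] [NumberField K]

/-- as `Ctx`, but the condition on quotients only concerns the conjugates over `ℚ(ζ)` -/
structure Ctx2 (m : ℕ) (ζ α : K) : Prop where
  hm : 0 < m
  hζ : IsPrimitiveRoot ζ m
  hα : IsIntegral ℤ α
  h0 : α ≠ 0
  hroot : ∀ n : ℕ, 0 < n → α ^ n ≠ 1
  gen : ∀ σ τ : K →ₐ[ℚ] ℂ, σ ζ = τ ζ → σ α = τ α → σ = τ
  inj : ∀ k : ℕ, 0 < k → ∀ σ τ : K →ₐ[ℚ] ℂ, σ ζ = τ ζ → (σ α) ^ k = (τ α) ^ k → σ α = τ α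

/-- for the primes `p` dividing `m` exactly once: what fixes `α ^ p` fixes `α` -/
def UT (m : ℕ) (ζ α : K) : Prop :=
  ∀ p : ℕ, p.Prime → p ∣ m → ¬ p ^ 2 ∣ m → ∀ u ∈ Gset m p, Fix ζ (α ^ p) u → Fix ζ α u

/-- for the primes `p` whose square divides `m`: not everything fixes `α ^ p` -/
def SQ (m : ℕ) (ζ α : K) : Prop :=
  ∀ p : ℕ, p.Prime → p ^ 2 ∣ m → ∃ u ∈ Gset m p, ¬ Fix ζ (α ^ p) u

end

/-- FR1 with the weaker assumptions -/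
def T_FR1 : Prop := ∀ (K : Type) [Field K] [NumberField K] (m : ℕ) (ζ α : K), Ctx2 m ζ α →
  ∀ p : ℕ, p.Prime → p ∣ m → ¬ p ^ 2 ∣ m →
    ∀ s : ℕ, s.Coprime m → s ≡ p [MOD m / p] →
    (∀ σ : K →ₐ[ℚ] ℂ, ∀ τ ∈ cls ζ ((σ ζ) ^ s), (σ α) ^ p ≠ τ α) →
    (p : ℝ) ^ ((finrank ℚ K : ℝ) * (Hset m p ζ α).card / (p - 1)) ≤
      ∏ σ : K →ₐ[ℚ] ℂ, ∏ τ ∈ cls ζ ((σ ζ) ^ s), ‖(σ α) ^ p - τ α‖

/-- QUO with the weaker assumptions -/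
def T_QUO : Prop := ∀ (K : Type) [Field K] [NumberField K] (m : ℕ) (ζ α : K), Ctx2 m ζ α →
  ∀ p : ℕ, 0 < p →
    (∀ σ : K →ₐ[ℚ] ℂ, ∀ τ ∈ cls ζ (σ ζ), ∑ l ∈ range p, (σ α) ^ l * (τ α) ^ (p - 1 - l) ≠ 0) ∧
    1 ≤ ∏ σ : K →ₐ[ℚ] ℂ, ∏ τ ∈ cls ζ (σ ζ), ‖∑ l ∈ range p, (σ α) ^ l * (τ α) ^ (p - 1 - l)‖

/-- FX with the weaker assumptions, for arbitrary elements -/
def T_FX : Prop := ∀ (K : Type) [Field K] [NumberField K] (m : ℕ) (ζ : K), 0 < m →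
  IsPrimitiveRoot ζ m →
  (∀ (β : K) (u : ℕ), u.Coprime m → ¬ Fix ζ β u →
    ∀ σ : K →ₐ[ℚ] ℂ, ∀ τ ∈ cls ζ ((σ ζ) ^ u), σ β ≠ τ β) ∧
  (∀ p : ℕ, p.Prime → p ∣ m → (Gset m p).card = if p ^ 2 ∣ m then p else p - 1) ∧
  (∀ (β : K) (p : ℕ), p.Prime → p ∣ m → p ^ 2 ∣ m → (∃ u ∈ Gset m p, ¬ Fix ζ β u) →
    (Hset m p ζ β).card = 1) ∧
  (∀ (β : K) (p : ℕ), p.Prime → p ∣ m → 0 < (Hset m p ζ β).card)

/-- GEN with the weaker assumptions -/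
def T_GEN : Prop := ∀ (K : Type) [Field K] [NumberField K] (m : ℕ) (ζ α : K), Ctx2 m ζ α →
  ∀ (ε : (K →ₐ[ℚ] ℂ) → ℝ), (∀ σ, 0 < ε σ ∧ ε σ ≤ 1 / 2) → ∀ p q s t u : ℕ, 0 < p → 0 < q →
    s.Coprime m → t.Coprime m → s ≡ u * t [MOD m] →
    (∀ σ : K →ₐ[ℚ] ℂ, ∀ τ ∈ cls ζ ((σ ζ) ^ u), (σ α) ^ p ≠ (τ α) ^ q) →
    EP ζ α ε p q s t ≤
      -Real.log (∏ σ : K →ₐ[ℚ] ℂ, ∏ τ ∈ cls ζ ((σ ζ) ^ u), ‖(σ α) ^ p - (τ α) ^ q‖) +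
        (finrank ℚ K : ℝ) / Nat.totient m * ((p + q) * (lam α + ∑ σ, ε σ))

/-- SLF with the weaker assumptions -/
def T_SLF : Prop := ∀ (K : Type) [Field K] [NumberField K] (m : ℕ) (ζ α : K), Ctx2 m ζ α →
  ∀ (ε : (K →ₐ[ℚ] ℂ) → ℝ), (∀ σ, 0 < ε σ ∧ ε σ ≤ 1 / 2) → (∀ σ τ, σ α = τ α → ε σ = ε τ) →
    ∀ p s t u : ℕ, 0 < p → s.Coprime m → t.Coprime m → s ≡ u * t [MOD m] → Fix ζ α u →
    EP ζ α ε p p s t ≤ EP ζ α ε 1 1 1 1 +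
      (finrank ℚ K : ℝ) / Nat.totient m * (2 * p * (lam α + ∑ σ, ε σ))

/-- ANA with the weaker assumptions -/
def T_ANA : Prop := ∃ C : ℝ, 1 ≤ C ∧ ∀ (K : Type) [Field K] [NumberField K] (m : ℕ) (ζ α : K),
  Ctx2 m ζ α → ∀ κ : ℝ, 0 < κ → κ ≤ 1 →
  ∃ ε : (K →ₐ[ℚ] ℂ) → ℝ, (∀ σ, 0 < ε σ ∧ ε σ ≤ 1 / 2) ∧ (∀ σ τ, σ α = τ α → ε σ = ε τ) ∧
    ∑ σ, ε σ ≤ Nat.totient m * (κ * (C * (1 + Mp m ζ α + 2 * (lam α / Nat.totient m)))) ∧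
    EP ζ α ε 1 1 1 1 ≤ finrank ℚ K *
      (C * (1 + Mp m ζ α + 2 * (lam α / Nat.totient m)) * (1 + Real.log (1 / κ)))

/-- H1 with the weaker assumptions -/
def T_H1 : Prop := ∀ (K : Type) [Field K] [NumberField K] (m : ℕ) (ζ α : K), Ctx2 m ζ α →
  UT m ζ α →
  ∀ ε : (K →ₐ[ℚ] ℂ) → ℝ, (∀ σ, 0 < ε σ ∧ ε σ ≤ 1 / 2) → (∀ σ τ, σ α = τ α → ε σ = ε τ) →
  ∀ R : ℝ, EP ζ α ε 1 1 1 1 ≤ finrank ℚ K * R →
  ∀ P : Finset ℕ, (∀ p ∈ P, p.Prime ∧ ¬ p ^ 2 ∣ m) → ∀ a : ℝ, 0 ≤ a →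
    0 ≤ rhs R ((lam α + ∑ σ, ε σ) / Nat.totient m) (ee m ζ α) P a

/-- H2 with the weaker assumptions -/
def T_H2 : Prop := ∀ (K : Type) [Field K] [NumberField K] (m : ℕ) (ζ α : K), Ctx2 m ζ α →
  ∀ ε : (K →ₐ[ℚ] ℂ) → ℝ, (∀ σ, 0 < ε σ ∧ ε σ ≤ 1 / 2) → (∀ σ τ, σ α = τ α → ε σ = ε τ) →
  ∀ R : ℝ, EP ζ α ε 1 1 1 1 ≤ finrank ℚ K * R →
  ∀ p : ℕ, p.Prime → p ^ 2 ∣ m → (∃ u ∈ Gset m p, ¬ Fix ζ (α ^ p) u) →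
    ((p : ℝ) - 1) * Real.log p ≤ R + 2 * (p : ℝ) ^ 2 * ((lam α + ∑ σ, ε σ) / Nat.totient m)

/-- FXE with the weaker assumptions -/
def T_FXE : Prop := ∀ (K : Type) [Field K] [NumberField K] (m : ℕ) (ζ α : K), Ctx2 m ζ α →
  ∀ u : ℕ, u.Coprime m → Fix ζ α u → ∀ ω : ℂ, IsPrimitiveRoot ω m →
    ∏ τ ∈ cls ζ (ω ^ u), ((X : ℂ[X]) - C (τ α)) = ∏ τ ∈ cls ζ ω, (X - C (τ α))

/-- UTK: removing the twists at the primes dividing `m` exactly once -/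
def T_UTK : Prop := ∀ (K : Type) [Field K] [NumberField K] (m : ℕ) (ζ α : K), Ctx2 m ζ α →
  ∃ k : ℕ, UT m ζ (ζ ^ k * α) ∧
    ∀ p : ℕ, p.Prime → p ^ 2 ∣ m → ∀ u ∈ Gset m p, Fix ζ ((ζ ^ k * α) ^ p) u → Fix ζ (α ^ p) u

/-- TWA: removing a twist at a prime whose square divides `m` -/
def T_TWA : Prop := ∀ (K : Type) [Field K] [NumberField K] (m : ℕ) (ζ α : K), Ctx2 m ζ α →
  ∀ p : ℕ, p.Prime → p ^ 2 ∣ m → (∀ u ∈ Gset m p, Fix ζ (α ^ p) u) →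
    ∃ k : ℕ, ∀ u ∈ Gset m p, Fix ζ (ζ ^ k * α) u

/-- CTW: invariance under twists -/
def T_CTW : Prop := ∀ (K : Type) [Field K] [NumberField K] (m : ℕ) (ζ α : K), Ctx2 m ζ α →
  ∀ k : ℕ, Ctx2 m ζ (ζ ^ k * α) ∧ lam (ζ ^ k * α) = lam α ∧ Mp m ζ (ζ ^ k * α) = Mp m ζ α

/-- the mean of `log⁺ |f|` over the unit circle -/
noncomputable def mpc (f : ℂ[X]) : ℝ := Real.circleAverage (fun x : ℂ => Real.posLog ‖f.eval x‖) 0 1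

/-- as `Hyp`, but the condition on quotients only concerns zeros of the same polynomial -/
structure Hyp2 (m : ℕ) (F : ℤ[X][X]) : Prop where
  hm : 0 < m
  monic : F.Monic
  irr : ∀ ω : ℂ, IsPrimitiveRoot ω m →
    Irreducible (sp (IntermediateField.AdjoinSimple.gen ℚ ω : IntermediateField.adjoin ℚ {ω}) F)
  h0 : ∀ ω : ℂ, IsPrimitiveRoot ω m → (sp ω F).eval 0 ≠ 0
  hroot : ∀ ω : ℂ, IsPrimitiveRoot ω m → ∀ z : ℂ, (sp ω F).eval z = 0 → ∀ k : ℕ, 0 < k → z ^ k ≠ 1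
  quot : ∀ ω : ℂ, IsPrimitiveRoot ω m → ∀ z w : ℂ,
    (sp ω F).eval z = 0 → (sp ω F).eval w = 0 → ∀ k : ℕ, 0 < k → z ^ k = w ^ k → z = w

/-- FK with the weaker assumptions -/
def T_FK : Prop := ∀ (m : ℕ) (F : ℤ[X][X]), Hyp2 m F →
  ∃ (K : Type) (_ : Field K) (_ : NumberField K) (ζ α : K), Ctx2 m ζ α ∧
    ∀ ω : ℂ, IsPrimitiveRoot ω m → sp ω F = ∏ τ ∈ cls ζ ω, (X - C (τ α))

/-- RED with the weaker assumptions -/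
def T_RED : Prop := ∀ (m : ℕ) (F : ℤ[X][X]), Hyp2 m F → ∀ p : ℕ, p.Prime → p ^ 2 ∣ m →
  (∀ ω : ℂ, IsPrimitiveRoot ω m → ∀ u ∈ Gset m p, sp (ω ^ u) F = sp ω F) →
  ∃ F' : ℤ[X][X], Hyp2 (m / p) F' ∧ ∀ ω : ℂ, IsPrimitiveRoot ω m → sp (ω ^ p) F' = sp ω F

/-- SC: multiplication of the zeros by a root of unity -/
def T_SC : Prop := ∀ (m : ℕ) (F : ℤ[X][X]), Hyp2 m F → ∀ k : ℕ,
  Hyp2 m (F.scaleRoots (X ^ k)) ∧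
  (∀ ω : ℂ, IsPrimitiveRoot ω m →
    (sp ω (F.scaleRoots (X ^ k))).mahlerMeasure = (sp ω F).mahlerMeasure ∧
    mpc (sp ω (F.scaleRoots (X ^ k))) = mpc (sp ω F)) ∧
  ∀ (K : Type) [Field K] [NumberField K] (ζ α : K),
    (∀ ω : ℂ, IsPrimitiveRoot ω m → sp ω F = ∏ τ ∈ cls ζ ω, (X - C (τ α))) →
    ∀ ω : ℂ, IsPrimitiveRoot ω m →
      sp ω (F.scaleRoots (X ^ k)) = ∏ τ ∈ cls ζ ω, (X - C (τ (ζ ^ k * α)))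

/-- the field generated by all roots of unity -/
noncomputable def QAb : IntermediateField ℚ ℂ :=
  IntermediateField.adjoin ℚ {z : ℂ | ∃ n : ℕ, 0 < n ∧ z ^ n = 1}

/-- the hypotheses of the general theorem -/
structure Hyp3 (m : ℕ) (F : ℤ[X][X]) : Prop where
  hm : 0 < m
  monic : F.Monic
  irr : ∀ ω : QAb, IsPrimitiveRoot ω m → Irreducible (sp ω F)
  h0 : ∀ ω : ℂ, IsPrimitiveRoot ω m → (sp ω F).eval 0 ≠ 0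
  hroot : ∀ ω : ℂ, IsPrimitiveRoot ω m → ∀ z : ℂ, (sp ω F).eval z = 0 → ∀ k : ℕ, 0 < k → z ^ k ≠ 1

/-- EXP: either the quotients of zeros are no roots of unity or `F` is a polynomial in `X ^ e` -/
def T_EXP : Prop := ∀ (m : ℕ) (F : ℤ[X][X]), Hyp3 m F → Hyp2 m F ∨
  ∃ G : ℤ[X][X], Hyp3 m G ∧ G.natDegree < F.natDegree ∧
    ∀ ω : ℂ, IsPrimitiveRoot ω m → (sp ω F).mahlerMeasure = (sp ω G).mahlerMeasure ∧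
      mpc (sp ω F) = mpc (sp ω G)

/-- the final theorem -/
def T_FIN : Prop := ∃ c : ℝ, 0 < c ∧ ∀ (m : ℕ) (F : ℤ[X][X]), Hyp3 m F →
  c / (1 + meanP m (fun ω => mpc (sp ω F))) ^ 6 ≤
    meanP m (fun ω => Real.log (sp ω F).mahlerMeasure)

end Pool.Agent.Y947.RL
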