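import Mathlib
import Pool.Agent.Y947.RL.Stm3

/-!
# Project RL, fourth group: the theorem for algebraic integers
-/

set_option autoImplicit false

open Finset Polynomial Module Pool.Agent.H388SL Pool.Agent.Y947.DL

namespace Pool.Agent.Y947.RL

/-- the absolute logarithmic height of an algebraic integer, by its Mahler measure -/
noncomputable def hgt (z : ℂ) : ℝ :=
  Real.log ((minpoly ℤ z).map (Int.castRingHom ℂ)).mahlerMeasure / (minpoly ℤ z).natDegree

/-- HGT: the mean of the logarithmic Mahler measures is degree times height -/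
def T_HGT : Prop := ∀ (m : ℕ) (F : ℤ[X][X]), Hyp3 m F → ∀ ω₀ : ℂ, IsPrimitiveRoot ω₀ m → ∀ z : ℂ,
  (sp ω₀ F).eval z = 0 →
    meanP m (fun ω => Real.log (sp ω F).mahlerMeasure) = F.natDegree * hgt z

/-- REP: minimal polynomials over the field of all roots of unity come from `ℤ[T][X]` -/
def T_REP : Prop := ∀ z : ℂ, IsIntegral ℤ z →
  ∃ (m : ℕ) (ω₀ : QAb) (F : ℤ[X][X]), 0 < m ∧ IsPrimitiveRoot ω₀ m ∧ F.Monic ∧ sp ω₀ F = minpoly QAb z

/-- CNJ: the hypotheses of the general theorem for such a polynomial -/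
def T_CNJ : Prop := ∀ z : ℂ, IsIntegral ℤ z → z ≠ 0 → (∀ k : ℕ, 0 < k → z ^ k ≠ 1) →
  ∀ (m : ℕ) (ω₀ : QAb) (F : ℤ[X][X]), 0 < m → IsPrimitiveRoot ω₀ m → F.Monic →
    sp ω₀ F = minpoly QAb z → Hyp3 m F

end Pool.Agent.Y947.RL
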