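import Mathlib
import Pool.Agent.Y947.RL.Stm2

/-!
# Project RL: the theorem over a number field, from the energy inequalities
-/

set_option autoImplicit false

open Finset Polynomial Module Pool.Agent.H388SL Pool.Agent.Y947.DL

namespace Pool.Agent.Y947.RL

/-- the bound over a number field -/
def S_KTH : Prop := ∃ c : ℝ, 0 < c ∧ ∀ (K : Type) [Field K] [NumberField K] (m : ℕ) (ζ α : K),
  Ctx m ζ α → (∀ p : ℕ, p.Prime → p ^ 2 ∣ m → ∃ u ∈ Gset m p, ¬ Fix ζ α u) →
    c / (1 + Mp m ζ α) ^ 6 ≤ lam α / Nat.totient m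

section
variable {K : Type} [Field K] [NumberField K]

lemma Mp_nonneg (m : ℕ) (ζ α : K) : 0 ≤ Mp m ζ α := by
  unfold Mp
  apply div_nonneg _ (Nat.cast_nonneg _)
  apply Finset.sum_nonneg
  intro ω _
  exact Real.circleAverage_nonneg_of_nonneg fun _ _ => Real.posLog_nonneg

lemma Hset_le (m p : ℕ) (ζ α : K) : (Hset m p ζ α).card ≤ (Gset m p).card := by
  classical
  unfold Hset
  exact Finset.card_le_card (Finset.filter_subset _ _)

lemma one_le_ee (hfx : S_FX) {m : ℕ} {ζ α : K} (hC : Ctx m ζ α)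
    (hsq : ∀ p : ℕ, p.Prime → p ^ 2 ∣ m → ∃ u ∈ Gset m p, ¬ Fix ζ α u) {p : ℕ} (hp : p.Prime) :
    1 ≤ ee m ζ α p := by
  obtain ⟨-, h2, h3, h4⟩ := hfx K m ζ α hC
  unfold ee
  split_ifs with hpm
  · have hH : 0 < (Hset m p ζ α).card := h4 p hp hpm
    have hH' : (0:ℝ) < (Hset m p ζ α).card := by exact_mod_cast hH
    rw [le_div_iff₀ hH', one_mul]
    have h1 : (Hset m p ζ α).card ≤ p - 1 := by
      by_cases h : p ^ 2 ∣ m
      · rw [h3 p hp hpm h (hsq p hp h)]
        have := hp.two_le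
        omega
      · have := h2 p hp hpm
        rw [if_neg h] at this
        rw [← this]
        exact Hset_le _ _ _ _
    have h5 : ((p - 1 : ℕ) : ℝ) = (p : ℝ) - 1 := by
      rw [Nat.cast_sub hp.one_le]; norm_num
    rw [← h5]
    exact_mod_cast h1
  · exact le_rfl

end

/-- real arithmetic of the last step -/
lemma real_step {c0 C B t ℓ lm η R κ : ℝ} (hc0 : 0 < c0) (hC : 1 ≤ C) (hB : 1 ≤ B) (ht : 1 ≤ t)
    (ht2 : 2 * 7 ^ 6 * C ^ 7 / c0 ≤ t) (hκ : κ = 1 / (t * B) ^ 7) (hR : R = C * B * (1 + Real.log (1 / κ)))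
    (hη : η ≤ κ * (C * B)) (hmain : c0 * ((1 + Real.log R) / R) ^ 6 ≤ lm + η) (hℓ : ℓ = 7 * t) :
    c0 / (2 * C ^ 6 * ℓ ^ 6) / B ^ 6 ≤ lm := by
  have hC0 : 0 < C := by linarith
  have hB0 : 0 < B := by linarith
  have ht0 : 0 < t := by linarith
  have htB : 1 ≤ t * B := by nlinarith
  have hlogB : 0 ≤ Real.log B := Real.log_nonneg hB
  have hlogt : 0 ≤ Real.log t := Real.log_nonneg ht
  have hlt : Real.log t ≤ t - 1 := Real.log_le_sub_one_of_pos ht0
  have hκ' : Real.log (1 / κ) = 7 * (Real.log t + Real.log B) := by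
    rw [hκ, one_div_one_div, Real.log_pow, Real.log_mul ht0.ne' hB0.ne']
    norm_num
  have hR1 : 1 ≤ 1 + Real.log (1 / κ) := by rw [hκ']; linarith
  have hRB : B ≤ R := by
    rw [hR]
    have h1 : B ≤ C * B := by nlinarith
    have h2 : C * B ≤ C * B * (1 + Real.log (1 / κ)) := le_mul_of_one_le_right (by positivity) hR1
    linarith
  have hR0 : 0 < R := by linarith
  have hlogR : Real.log B ≤ Real.log R := Real.log_le_log hB0 hRB
  have hRle : R ≤ C * B * (ℓ * (1 + Real.log B)) := by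
    rw [hR]
    apply mul_le_mul_of_nonneg_left _ (by positivity)
    rw [hκ', hℓ]
    have h1 : 1 + 7 * (Real.log t + Real.log B) ≤ 7 * (1 + Real.log t) * (1 + Real.log B) := by
      nlinarith [mul_nonneg hlogt hlogB]
    have h2 : 7 * (1 + Real.log t) * (1 + Real.log B) ≤ 7 * t * (1 + Real.log B) := by
      apply mul_le_mul_of_nonneg_right _ (by linarith)
      linarith
    linarith
  have hℓ0 : 0 < ℓ := by rw [hℓ]; linarith
  have hq : 1 / (C * B * ℓ) ≤ (1 + Real.log R) / R := by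
    rw [div_le_div_iff₀ (by positivity) hR0, one_mul]
    calc R ≤ C * B * (ℓ * (1 + Real.log B)) := hRle
      _ ≤ C * B * (ℓ * (1 + Real.log R)) := by
          apply mul_le_mul_of_nonneg_left _ (by positivity)
          apply mul_le_mul_of_nonneg_left _ hℓ0.le
          linarith
      _ = (1 + Real.log R) * (C * B * ℓ) := by ring
  have hq6 : c0 * (1 / (C * B * ℓ)) ^ 6 ≤ lm + η := by
    refine le_trans ?_ hmain
    apply mul_le_mul_of_nonneg_left _ hc0.le
    exact pow_le_pow_left₀ (by positivity) hq 6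
  have hη2 : η ≤ c0 / (2 * C ^ 6 * ℓ ^ 6) / B ^ 6 := by
    refine hη.trans ?_
    rw [hκ, hℓ]
    rw [div_le_iff₀ hc0] at ht2
    have e1 : 1 / (t * B) ^ 7 * (C * B) = C / (t ^ 7 * B ^ 6) := by
      field_simp
    rw [e1, div_div, div_le_div_iff₀ (by positivity) (by positivity)]
    have e2 : C * (2 * C ^ 6 * (7 * t) ^ 6 * B ^ 6) = (2 * 7 ^ 6 * C ^ 7) * (t ^ 6 * B ^ 6) := by ring
    have e3 : c0 * (t ^ 7 * B ^ 6) = (t * c0) * (t ^ 6 * B ^ 6) := by ring
    rw [e2, e3]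
    exact mul_le_mul_of_nonneg_right ht2 (by positivity)
  have e4 : c0 * (1 / (C * B * ℓ)) ^ 6 = 2 * (c0 / (2 * C ^ 6 * ℓ ^ 6) / B ^ 6) := by
    field_simp
  rw [e4] at hq6
  linarith

theorem kth (hopt : S_OPT) (hana : S_ANA) (hh1 : S_H1) (hh2 : S_H2) (hfx : S_FX) : S_KTH := by
  obtain ⟨c0, hc0, hO⟩ := hopt
  obtain ⟨C, hC1, hA⟩ := hana
  set t : ℝ := max 1 (2 * 7 ^ 6 * C ^ 7 / c0) with ht
  have ht1 : 1 ≤ t := le_max_left _ _
  have ht2 : 2 * 7 ^ 6 * C ^ 7 / c0 ≤ t := le_max_right _ _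
  set c1 : ℝ := c0 / (2 * C ^ 6 * (7 * t) ^ 6) with hc1
  have hC0 : 0 < C := by linarith
  have ht0 : 0 < t := by linarith
  have hc1pos : 0 < c1 := by rw [hc1]; positivity
  refine ⟨min 1 (c1 / 3 ^ 6), by positivity, ?_⟩
  intro K _ _ m ζ α hCtx hsq
  have hMp := Mp_nonneg m ζ α
  have hφ : (0:ℝ) < Nat.totient m := by exact_mod_cast Nat.totient_pos.mpr hCtx.hm
  have hlam := lam_nonneg α
  have hl0 : 0 ≤ lam α / Nat.totient m := div_nonneg hlam hφ.le
  have hpow : 1 ≤ (1 + Mp m ζ α) ^ 6 := one_le_pow₀ (by linarith)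
  by_cases hbig : 1 ≤ lam α / Nat.totient m
  · refine le_trans ?_ hbig
    rw [div_le_one (by positivity)]
    exact (min_le_left _ _).trans hpow
  push Not at hbig
  set B : ℝ := 3 * (1 + Mp m ζ α) with hB
  have hB1 : 1 ≤ B := by linarith
  have hB0 : 0 < B := by linarith
  have htB : 1 ≤ t * B := by nlinarith
  set κ : ℝ := 1 / (t * B) ^ 7 with hκ
  have hκ0 : 0 < κ := by positivity
  have hκ1 : κ ≤ 1 := by
    rw [hκ, div_le_one (by positivity)]
    exact one_le_pow₀ htB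
  obtain ⟨ε, hε, hcomp, hη, hE⟩ := hA K m ζ α hCtx κ hκ0 hκ1
  have hBle : 1 + Mp m ζ α + 2 * (lam α / Nat.totient m) ≤ B := by linarith
  have hlogκ : 0 ≤ Real.log (1 / κ) := Real.log_nonneg (by rw [le_div_iff₀ hκ0]; linarith)
  set R : ℝ := C * B * (1 + Real.log (1 / κ)) with hR
  have hR1 : 1 ≤ R := by
    have h1 : 1 ≤ C * B := by nlinarith
    have h2 : C * B ≤ C * B * (1 + Real.log (1 / κ)) :=
      le_mul_of_one_le_right (by positivity) (by linarith)
    linarith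
  have hE' : EP ζ α ε 1 1 1 1 ≤ finrank ℚ K * R := by
    refine hE.trans ?_
    apply mul_le_mul_of_nonneg_left _ (Nat.cast_nonneg _)
    rw [hR]
    apply mul_le_mul_of_nonneg_right _ (by linarith)
    exact mul_le_mul_of_nonneg_left hBle hC0.le
  have hη' : (∑ σ, ε σ) / Nat.totient m ≤ κ * (C * B) := by
    rw [div_le_iff₀ hφ]
    refine hη.trans ?_
    rw [mul_comm (κ * (C * B))]
    apply mul_le_mul_of_nonneg_left _ hφ.le
    apply mul_le_mul_of_nonneg_left _ hκ0.le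
    exact mul_le_mul_of_nonneg_left hBle hC0.le
  have hε0 : 0 ≤ ∑ σ, ε σ := Finset.sum_nonneg fun σ _ => (hε σ).1.le
  have hμ0 : 0 ≤ (lam α + ∑ σ, ε σ) / Nat.totient m := div_nonneg (by linarith) hφ.le
  have hmain := hO R ((lam α + ∑ σ, ε σ) / Nat.totient m) (ee m ζ α) (fun p => p ^ 2 ∣ m) hR1 hμ0
    (fun p hp => one_le_ee hfx hCtx hsq hp)
    (fun p hp hbad => hh2 K m ζ α hCtx ε hε hcomp R hE' p hp hbad (hsq p hp hbad))
    (fun P hP a ha => hh1 K m ζ α hCtx ε hε hcomp R hE' P hP a ha)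
  rw [add_div (lam α)] at hmain
  have hfin := real_step (ℓ := 7 * t) hc0 hC1 hB1 ht1 ht2 hκ hR hη' hmain rfl
  refine le_trans ?_ hfin
  rw [← hc1, hB, mul_pow, ← div_div]
  apply div_le_div_of_nonneg_right _ (by positivity)
  exact min_le_right _ _

end Pool.Agent.Y947.RL
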