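import Mathlib
import Pool.Agent.Y947.RL.Kth

/-!
# Project RL: the theorem for polynomials
-/

set_option autoImplicit false

open Finset Polynomial Module Pool.Agent.H388SL Pool.Agent.Y947.DL

namespace Pool.Agent.Y947.RL

section
variable {K : Type} [Field K] [NumberField K] {m : ℕ} {ζ α : K} {F : ℤ[X][X]}

lemma log_mahler_prod (s : Finset (K →ₐ[ℚ] ℂ)) :
    Real.log (∏ τ ∈ s, ((X : ℂ[X]) - C (τ α))).mahlerMeasure = ∑ τ ∈ s, Real.log (max 1 ‖τ α‖) := by
  have h1 : (∏ τ ∈ s, ((X : ℂ[X]) - C (τ α))).mahlerMeasure = ∏ τ ∈ s, max 1 ‖τ α‖ := by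
    rw [Finset.prod_eq_multiset_prod, prod_mahlerMeasure_eq_mahlerMeasure_prod, Multiset.map_map,
      Finset.prod_eq_multiset_prod]
    congr 1
    refine Multiset.map_congr rfl fun τ _ => ?_
    rw [Function.comp_apply, mahlerMeasure_X_sub_C]
  rw [h1, Real.log_prod]
  intro τ _
  have : (0:ℝ) < max 1 ‖τ α‖ := lt_of_lt_of_le one_pos (le_max_left _ _)
  exact this.ne'

lemma mean_mahler (hm : 0 < m) (hζ : IsPrimitiveRoot ζ m)
    (hF : ∀ ω : ℂ, IsPrimitiveRoot ω m → sp ω F = ∏ τ ∈ cls ζ ω, (X - C (τ α))) :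
    meanP m (fun ω => Real.log (sp ω F).mahlerMeasure) = lam α / Nat.totient m := by
  classical
  unfold meanP
  congr 1
  have h1 : ∀ ω ∈ primitiveRoots m ℂ, Real.log (sp ω F).mahlerMeasure =
      ∑ τ ∈ cls ζ ω, Real.log (max 1 ‖τ α‖) := by
    intro ω hω
    rw [hF ω ((mem_primitiveRoots hm).mp hω), log_mahler_prod]
  rw [Finset.sum_congr rfl h1]
  unfold lam cls
  rw [← Finset.sum_fiberwise_of_maps_to (s := (Finset.univ : Finset (K →ₐ[ℚ] ℂ)))
    (t := primitiveRoots m ℂ) (g := fun τ => τ ζ)]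
  intro τ _
  rw [mem_primitiveRoots hm]
  exact hζ.map_of_injective (f := τ) τ.toRingHom.injective

lemma mean_Mp (hm : 0 < m)
    (hF : ∀ ω : ℂ, IsPrimitiveRoot ω m → sp ω F = ∏ τ ∈ cls ζ ω, (X - C (τ α))) :
    meanP m (fun ω => Real.circleAverage (fun x : ℂ => Real.posLog ‖(sp ω F).eval x‖) 0 1) =
      Mp m ζ α := by
  unfold meanP Mp
  congr 1
  refine Finset.sum_congr rfl fun ω hω => ?_
  simp only [hF ω ((mem_primitiveRoots hm).mp hω), eval_prod, eval_sub, eval_X, eval_C]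

end

/-- the bound for polynomials -/
def S_FIN : Prop := ∃ c : ℝ, 0 < c ∧ ∀ (m : ℕ) (F : ℤ[X][X]), Hyp m F →
  c / (1 + meanP m (fun ω => Real.circleAverage (fun x : ℂ => Real.posLog ‖(sp ω F).eval x‖) 0 1)) ^ 6 ≤
    meanP m (fun ω => Real.log (sp ω F).mahlerMeasure)

theorem fin_thm (hK : S_KTH) (hfk : S_FK) (hred : S_RED) (hmea : S_MEA) (hfxe : S_FXE) : S_FIN := by
  obtain ⟨c, hc, hk⟩ := hK
  refine ⟨c, hc, ?_⟩
  intro m
  induction m using Nat.strong_induction_on with
  | _ m ih =>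
    intro F hF
    obtain ⟨K, _, _, ζ, α, hC, hprod⟩ := hfk m F hF
    by_cases hsq : ∀ p : ℕ, p.Prime → p ^ 2 ∣ m → ∃ u ∈ Gset m p, ¬ Fix ζ α u
    · have h1 := hk K m ζ α hC hsq
      rw [mean_mahler hF.hm hC.hζ hprod, mean_Mp hF.hm hprod]
      exact h1
    · push Not at hsq
      obtain ⟨p, hp, hpm, hfix⟩ := hsq
      have hcop : ∀ u ∈ Gset m p, u.Coprime m := by
        intro u hu
        unfold Gset at hu
        exact (Finset.mem_filter.mp hu).2.1
      have h2 : ∀ ω : ℂ, IsPrimitiveRoot ω m → ∀ u ∈ Gset m p, sp (ω ^ u) F = sp ω F := by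
        intro ω hω u hu
        rw [hprod ω hω, hprod (ω ^ u) (hω.pow_of_coprime u (hcop u hu)),
          hfxe K m ζ α hC u (hcop u hu) (hfix u hu) ω hω]
      obtain ⟨F', hF', heq⟩ := hred m F hF p hp hpm h2
      have hpm' : p ∣ m := (dvd_pow_self p two_ne_zero).trans hpm
      have hlt : m / p < m := Nat.div_lt_self hF.hm hp.one_lt
      have h3 := ih (m / p) hlt F' hF'
      rw [← hmea m p hF.hm hp hpm, ← hmea m p hF.hm hp hpm] at h3
      have e1 : meanP m (fun ω => Real.circleAverage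
            (fun x : ℂ => Real.posLog ‖(sp (ω ^ p) F').eval x‖) 0 1) =
          meanP m (fun ω => Real.circleAverage (fun x : ℂ => Real.posLog ‖(sp ω F).eval x‖) 0 1) := by
        unfold meanP
        congr 1
        refine Finset.sum_congr rfl fun ω hω => ?_
        simp only [heq ω ((mem_primitiveRoots hF.hm).mp hω)]
      have e2 : meanP m (fun ω => Real.log (sp (ω ^ p) F').mahlerMeasure) =
          meanP m (fun ω => Real.log (sp ω F).mahlerMeasure) := by
        unfold meanP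
        congr 1
        refine Finset.sum_congr rfl fun ω hω => ?_
        simp only [heq ω ((mem_primitiveRoots hF.hm).mp hω)]
      rw [e1, e2] at h3
      exact h3

end Pool.Agent.Y947.RL
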